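import Pool.Agent.N869.GK.D.Stm
import Pool.Agent.W351.HB.PF
import Pool.Agent.W215.HB.Bilo
import Pool.Agent.W864.HB.Bilt
import Pool.Agent.N973.ND.BOX0

/-!
# GK-HS: the sum of the Hilbert symbols at the bad places
-/

set_option autoImplicit false
set_option linter.unusedVariables false

open scoped Classical

namespace Pool.Agent.N603.GK.HS

open Finset
open Pool.Agent.N869.GK Pool.Agent.N869.GK.D
open Pool.Agent.Y703.CQ (nr)
open Pool.Agent.N973.ND (uu)
open Pool.Agent.W313.BMX (Splits splits_comm splits_neg_mul ram diag)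
open Pool.Agent.W351.HB.PF (Ev ev_all mem_none mem_some bil splits_one)
open Pool.Agent.W928.BMX (splits_real)

theorem bilo : Pool.Agent.W313.HB.S_BILO := Pool.Agent.W215.HB.bilo_
theorem bilt : Pool.Agent.W313.HB.S_BILT := Pool.Agent.W864.HBm.bilt_

/-! ### Symbols with values in the field with two elements -/

theorem ite_congr2 {P Q : Prop} (h : P ↔ Q) :
    (if P then (0 : ZMod 2) else 1) = if Q then 0 else 1 := by
  by_cases hP : P
  · rw [if_pos hP, if_pos (h.1 hP)]
  · rw [if_neg hP, if_neg (fun hQ => hP (h.2 hQ))]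

theorem ite_iff {R P Q : Prop} (h : R ↔ (P ↔ Q)) :
    (if R then (0 : ZMod 2) else 1) = (if P then 0 else 1) + (if Q then 0 else 1) := by
  have e : (1 : ZMod 2) + 1 = 0 := by decide
  by_cases hP : P
  · by_cases hQ : Q
    · rw [if_pos hP, if_pos hQ, if_pos (h.2 ⟨fun _ => hQ, fun _ => hP⟩), add_zero]
    · rw [if_pos hP, if_neg hQ, if_neg (fun hR => hQ ((h.1 hR).1 hP)), zero_add]
  · by_cases hQ : Q
    · rw [if_neg hP, if_pos hQ, if_neg (fun hR => hP ((h.1 hR).2 hQ)), add_zero]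
    · rw [if_neg hP, if_neg hQ, if_pos (h.2 ⟨fun h' => absurd h' hP, fun h' => absurd h' hQ⟩), e]

theorem hR_comm (m n : ℤ) : hR m n = hR n m := ite_congr2 splits_comm

theorem hR_add (m n n' : ℤ) (hm : m ≠ 0) (hn : n ≠ 0) (hn' : n' ≠ 0) :
    hR m (n * n') = hR m n + hR m n' := by
  refine ite_iff ?_
  have e1 := splits_real m (n * n') hm (mul_ne_zero hn hn')
  have e2 := splits_real m n hm hn
  have e3 := splits_real m n' hm hn'
  rw [mul_neg_iff] at e1
  have f1 := not_congr e1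
  have f2 := not_congr e2
  have f3 := not_congr e3
  rw [not_not] at f1 f2 f3
  rw [f1, f2, f3]
  omega

theorem hQ_prime (p : ℕ) [h : Fact p.Prime] (m n : ℤ) : hQ p m n = hP p m n := by
  unfold hQ
  rw [dif_pos h.out]

theorem hQ_comm (p : ℕ) (m n : ℤ) : hQ p m n = hQ p n m := by
  by_cases hp : p.Prime
  · have : Fact p.Prime := ⟨hp⟩
    rw [hQ_prime, hQ_prime]
    exact ite_congr2 splits_comm
  · unfold hQ
    rw [dif_neg hp, dif_neg hp]

theorem hQ_add (p : ℕ) (m n n' : ℤ) (hm : m ≠ 0) (hn : n ≠ 0) (hn' : n' ≠ 0) :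
    hQ p m (n * n') = hQ p m n + hQ p m n' := by
  by_cases hp : p.Prime
  · have : Fact p.Prime := ⟨hp⟩
    rw [hQ_prime, hQ_prime, hQ_prime]
    exact ite_iff (bil bilo bilt ⟨p, hp⟩ m n n' hm hn hn')
  · unfold hQ
    rw [dif_neg hp, dif_neg hp, dif_neg hp, add_zero]

theorem HS_comm (M : ℕ) (m n : ℤ) : HS M m n = HS M n m := by
  unfold HS
  rw [hR_comm]
  congr 1
  exact Finset.sum_congr rfl fun p _ => hQ_comm p m n

theorem HS_add (M : ℕ) (m n n' : ℤ) (hm : m ≠ 0) (hn : n ≠ 0) (hn' : n' ≠ 0) :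
    HS M m (n * n') = HS M m n + HS M m n' := by
  unfold HS
  rw [hR_add m n n' hm hn hn', Finset.sum_congr rfl fun p _ => hQ_add p m n n' hm hn hn',
    Finset.sum_add_distrib]
  ring

theorem HS_add_left (M : ℕ) (m m' n : ℤ) (hm : m ≠ 0) (hm' : m' ≠ 0) (hn : n ≠ 0) :
    HS M (m * m') n = HS M m n + HS M m' n := by
  rw [HS_comm, HS_add M n m m' hn hm hm', HS_comm M n m, HS_comm M n m']

theorem HS_one (M : ℕ) (m : ℤ) (hm : m ≠ 0) : HS M m 1 = 0 := by
  have h := HS_add M m 1 1 hm one_ne_zero one_ne_zero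
  rw [mul_one] at h
  have z : ∀ a : ZMod 2, a = a + a → a = 0 := by decide
  exact z _ h

/-! ### The product formula -/

theorem prod_formula (m n : ℤ) (hm : m ≠ 0) (hn : n ≠ 0) (T : Finset ℕ) (hT : ∀ p ∈ T, p.Prime)
    (h0 : ∀ p : ℕ, p.Prime → p ∉ T → hQ p m n = 0) : hR m n + ∑ p ∈ T, hQ p m n = 0 := by
  obtain ⟨hfin, heven⟩ := ev_all bilo bilt m n hm hn
  let f : Option Nat.Primes → ZMod 2 := fun v => if v ∈ ram (diag m) n then 1 else 0
  let S : Finset (Option Nat.Primes) :=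
    insert none (T.attach.image fun p => some (⟨p.1, hT p.1 p.2⟩ : Nat.Primes))
  have f1 : ∀ v, v ∈ ram (diag m) n → f v = 1 := fun v hv => if_pos hv
  have f0 : ∀ v, v ∉ ram (diag m) n → f v = 0 := fun v hv => if_neg hv
  have hval : ∀ (p : ℕ) (hp : p.Prime), f (some (⟨p, hp⟩ : Nat.Primes)) = hQ p m n := by
    intro p hp
    have : Fact p.Prime := ⟨hp⟩
    rw [hQ_prime]
    by_cases h : Splits (m : ℚ_[p]) (n : ℚ_[p])
    · exact (f0 _ (fun h' => (mem_some m n ⟨p, hp⟩).1 h' h)).trans (if_pos h).symm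
    · exact (f1 _ ((mem_some m n ⟨p, hp⟩).2 h)).trans (if_neg h).symm
  have hnone : f none = hR m n := by
    by_cases h : Splits (m : ℝ) (n : ℝ)
    · exact (f0 _ (fun h' => (mem_none m n).1 h' h)).trans (if_pos h).symm
    · exact (f1 _ ((mem_none m n).2 h)).trans (if_neg h).symm
  have h1 : ram (diag m) n = ↑(S.filter fun v => v ∈ ram (diag m) n) := by
    ext v
    rw [Finset.mem_coe, Finset.mem_filter]
    refine ⟨fun hv => ⟨?_, hv⟩, fun hv => hv.2⟩
    cases v with
    | none => exact Finset.mem_insert_self _ _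
    | some p =>
      refine Finset.mem_insert_of_mem (Finset.mem_image.2 ?_)
      have hpT : (p : ℕ) ∈ T := by
        by_contra hp
        have h2 := h0 p p.2 hp
        rw [← hval p p.2] at h2
        exact one_ne_zero ((f1 (some p) hv).symm.trans h2)
      exact ⟨⟨p, hpT⟩, Finset.mem_attach _ _, rfl⟩
  have h2 : ((ram (diag m) n).ncard : ZMod 2) = ∑ v ∈ S, f v := by
    rw [h1, Set.ncard_coe_finset, Finset.card_filter, Nat.cast_sum]
    refine Finset.sum_congr rfl fun v _ => ?_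
    change ((if v ∈ ram (diag m) n then 1 else 0 : ℕ) : ZMod 2) =
      if v ∈ ram (diag m) n then 1 else 0
    split_ifs
    · exact Nat.cast_one
    · exact Nat.cast_zero
  have h3 : ∑ v ∈ S, f v = hR m n + ∑ p ∈ T, hQ p m n := by
    rw [Finset.sum_insert (by
      intro h
      obtain ⟨p, -, hp⟩ := Finset.mem_image.1 h
      exact absurd hp (by simp)), Finset.sum_image (by
      intro p _ p' _ h
      have h4 := congrArg Subtype.val (Option.some.inj h)
      exact Subtype.ext h4), hnone, ← Finset.sum_attach T]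
    congr 1
    exact Finset.sum_congr rfl fun p _ => hval p.1 (hT p.1 p.2)
  rw [← h3, ← h2]
  exact (ZMod.natCast_eq_zero_iff _ _).2 heven.two_dvd

/-! ### Odd primes -/

theorem hQ_unit {p : ℕ} (hp : p.Prime) (hp2 : p ≠ 2) {m n : ℤ} (hm : ¬ (p : ℤ) ∣ m)
    (hn : ¬ (p : ℤ) ∣ n) : hQ p m n = 0 := by
  have : Fact p.Prime := ⟨hp⟩
  rw [hQ_prime]
  exact if_pos (Pool.Agent.W335.BMX.odd2 p hp2 m n hm hn)

theorem hQ_p {p : ℕ} (hp : p.Prime) (hp2 : p ≠ 2) {m : ℤ} (hm : ¬ (p : ℤ) ∣ m) :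
    hQ p m p = if IsSquare ((m : ℤ) : ZMod p) then 0 else 1 := by
  have : Fact p.Prime := ⟨hp⟩
  rw [hQ_prime]
  refine ite_congr2 ?_
  have h1 := Pool.Agent.W335.BMX.odd3 p hp2 1 m (by
    intro h
    have h2 := Int.eq_one_of_dvd_one (by positivity) h
    have h3 : p = 1 := by exact_mod_cast h2
    exact hp.one_lt.ne' h3) hm
  rw [mul_one] at h1
  have hm' : ((m : ℤ) : ZMod p) ≠ 0 := by
    rw [Ne, ZMod.intCast_zmod_eq_zero_iff_dvd]
    exact hm
  rw [splits_comm, h1, legendreSym.eq_one_iff p hm']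

theorem hQ_pp {p : ℕ} (hp : p.Prime) (hp2 : p ≠ 2) : hQ p p p = uu p := by
  have : Fact p.Prime := ⟨hp⟩
  have hp0 : (p : ℤ) ≠ 0 := by exact_mod_cast hp.ne_zero
  have h1 : hQ p p (-(p : ℤ)) = 0 := by
    rw [hQ_comm, hQ_prime]
    refine if_pos ?_
    have hp0' : ((p : ℤ) : ℚ_[p]) ≠ 0 := by exact_mod_cast hp.ne_zero
    have h2 : Splits (-(1 : ℚ_[p]) * ((p : ℤ) : ℚ_[p])) ((p : ℤ) : ℚ_[p]) := by
      refine (splits_neg_mul hp0').2 ?_
      have h3 := splits_one (F := ℚ_[p]) ((p : ℤ) : ℚ_[p])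
      rw [Int.cast_one] at h3
      exact splits_comm.1 h3
    have h4 : (((-(p : ℤ)) : ℤ) : ℚ_[p]) = -(1 : ℚ_[p]) * ((p : ℤ) : ℚ_[p]) := by
      push_cast
      ring
    rw [h4]
    exact h2
  have h2 : hQ p p p = hQ p p (-1) + hQ p p (-(p : ℤ)) := by
    rw [← hQ_add p p (-1) (-(p : ℤ)) hp0 (by norm_num) (neg_ne_zero.2 hp0)]
    congr 1
    ring
  have hn1 : ¬ (p : ℤ) ∣ -1 := by
    intro h
    have h4 : (p : ℤ) ∣ 1 := by
      rw [← dvd_neg]
      exact h
    have h5 := Int.eq_one_of_dvd_one (by positivity) h4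
    have h6 : p = 1 := by exact_mod_cast h5
    exact hp.one_lt.ne' h6
  rw [h2, h1, add_zero, hQ_comm, hQ_p hp hp2 hn1]
  have h7 : IsSquare (((-1 : ℤ)) : ZMod p) ↔ p % 4 ≠ 3 := by
    rw [← ZMod.exists_sq_eq_neg_one_iff]
    push_cast
    exact Iff.rfl
  unfold uu
  by_cases h8 : p % 4 = 3
  · rw [if_pos h8, if_neg (fun h => (h7.1 h) h8)]
  · rw [if_neg h8, if_pos (h7.2 h8)]

/-! ### The modulus -/

theorem dot_add {r : ℕ} (x a c : Gr r) : dot x (a + c) = dot x a + dot x c := by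
  unfold dot
  rw [← Finset.sum_add_distrib]
  exact Finset.sum_congr rfl fun i _ => by rw [Pi.add_apply, mul_add]

theorem dot_zero {r : ℕ} (x : Gr r) : dot x 0 = 0 := by
  unfold dot
  exact Finset.sum_eq_zero fun i _ => by rw [Pi.zero_apply, mul_zero]

theorem coprime_ind {M : ℕ} (hM : 2 ∣ M) (P : ℕ → Prop) (h1 : P 1)
    (hmul : ∀ q w : ℕ, q.Prime → ¬ q ∣ M → w.Coprime M → P w → P (q * w)) :
    ∀ w : ℕ, w.Coprime M → P w := by
  intro w
  refine induction_on_primes (motive := fun w : ℕ => w.Coprime M → P w) ?_ ?_ ?_ w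
  · intro h
    have h2 : M = 1 := by simpa using h
    rw [h2] at hM
    omega
  · exact fun _ => h1
  · intro p c hp ih h
    have hc : c.Coprime M := Nat.Coprime.coprime_mul_left h
    have hpM : p.Coprime M := Nat.Coprime.coprime_mul_right h
    exact hmul p c hp ((Nat.Prime.coprime_iff_not_dvd hp).1 hpM) hc (ih hc)

theorem main : S_HS := by
  intro hGen hLab b r g hg x y u w hu hw
  obtain ⟨g1, g2, g3, g4, g5⟩ := hGen.2 b r g hg
  obtain ⟨l1, l2, l3, l4, l5, l6, l7⟩ := hLab hGen b r g hg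
  set M := MM b with hMdef
  have h2M : 2 ∣ M := by
    rw [hMdef]
    unfold MM
    exact Dvd.dvd.mul_right (by norm_num) _
  have hM0 : M ≠ 0 := by
    rw [hMdef]
    unfold MM
    refine mul_ne_zero (by norm_num) (Finset.prod_ne_zero_iff.2 fun l hl => ?_)
    exact (hg.odd l hl).1.ne_zero
  have hbM : ∀ l ∈ b, l ∣ M := by
    intro l hl
    rw [hMdef]
    unfold MM
    exact Dvd.dvd.mul_left (Finset.dvd_prod_of_mem _ hl) _
  have hT0 : ∀ p ∈ M.primeFactors, p.Prime := fun p hp => Nat.prime_of_mem_primeFactors hp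
  have hnd : ∀ p : ℕ, p.Prime → p ∉ M.primeFactors → ¬ p ∣ M := fun p hp h h' =>
    h (Nat.mem_primeFactors.2 ⟨hp, h', hM0⟩)
  have hne2 : ∀ p : ℕ, ¬ p ∣ M → p ≠ 2 := by
    rintro p hp rfl
    exact hp h2M
  have hrep0 : ∀ x, rep g x ≠ 0 := fun x => (g1 x).ne_zero
  have hrepn : ∀ (x : Gr r) (p : ℕ), p.Prime → ¬ p ∣ M → ¬ (p : ℤ) ∣ rep g x := by
    intro x p hp hpM hd
    rcases g2 x p hp hd with rfl | hb
    · exact hpM h2M
    · exact hpM (hbM p hb)
  have hnp : ∀ p q : ℕ, p.Prime → q.Prime → p ≠ q → ¬ (p : ℤ) ∣ (q : ℤ) := by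
    intro p q hp hq hne hd
    exact hne ((Nat.prime_dvd_prime_iff_eq hp hq).1 (by exact_mod_cast hd))
  -- the representatives
  have hxy : HS M (rep g x) (rep g y) = 0 := by
    refine prod_formula _ _ (hrep0 x) (hrep0 y) _ hT0 fun p hp hpT => ?_
    have hpM := hnd p hp hpT
    exact hQ_unit hp (hne2 p hpM) (hrepn x p hp hpM) (hrepn y p hp hpM)
  have z1 : ∀ a b c : ZMod 2, a + (b + c) = 0 → a + c = b := by decide
  have z2 : ∀ a b c d : ZMod 2, a + (b + (c + d)) = 0 → a + d = b + c := by decide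
  have z3 : ∀ a : ZMod 2, a = a + a → a = 0 := by decide
  have hlam1 : lam g 1 = 0 := by
    have h := l1 1 1 (Nat.coprime_one_left M) (Nat.coprime_one_left M)
    rw [mul_one] at h
    funext i
    exact z3 _ (congrFun h i)
  -- a representative and a number prime to the modulus
  have hxw : ∀ (x : Gr r) (w : ℕ), w.Coprime M → HS M (rep g x) w = dot x (lam g w) := by
    intro x
    refine coprime_ind h2M _ ?_ ?_
    · rw [hlam1, dot_zero, Nat.cast_one]
      exact HS_one M _ (hrep0 x)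
    · intro q w hq hqM hw ih
      have hw0 : w ≠ 0 := by
        rintro rfl
        have h2 : M = 1 := by simpa using hw
        rw [h2] at h2M
        omega
      have hq0 : (q : ℤ) ≠ 0 := by exact_mod_cast hq.ne_zero
      have hw0' : (w : ℤ) ≠ 0 := by exact_mod_cast hw0
      rw [Nat.cast_mul, HS_add M _ _ _ (hrep0 x) hq0 hw0', ih,
        l1 q w ((Nat.Prime.coprime_iff_not_dvd hq).2 hqM) hw, dot_add]
      congr 1
      have hqT : q ∉ M.primeFactors := fun h => hqM (Nat.dvd_of_mem_primeFactors h)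
      have h3 := prod_formula (rep g x) q (hrep0 x) hq0 (insert q M.primeFactors) (by
        intro p hp
        rcases Finset.mem_insert.1 hp with rfl | hp
        · exact hq
        · exact hT0 p hp) (by
        intro p hp hpT
        rw [Finset.mem_insert, not_or] at hpT
        have hpM := hnd p hp hpT.2
        exact hQ_unit hp (hne2 p hpM) (hrepn x p hp hpM) (hnp p q hp hq hpT.1))
      rw [Finset.sum_insert hqT] at h3
      have h4 := z1 _ _ _ h3
      rw [hQ_p hq (hne2 q hqM) (hrepn x q hq hqM)] at h4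
      rw [l4 q hq hqM x]
      exact h4
  -- two numbers prime to the modulus
  have hpq : ∀ p q : ℕ, p.Prime → q.Prime → ¬ p ∣ M → ¬ q ∣ M → HS M p q = uu p * uu q := by
    intro p q hp hq hpM hqM
    have hp0 : (p : ℤ) ≠ 0 := by exact_mod_cast hp.ne_zero
    have hq0 : (q : ℤ) ≠ 0 := by exact_mod_cast hq.ne_zero
    have hpT : p ∉ M.primeFactors := fun h => hpM (Nat.dvd_of_mem_primeFactors h)
    have hqT : q ∉ M.primeFactors := fun h => hqM (Nat.dvd_of_mem_primeFactors h)
    by_cases hne : p = q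
    · subst hne
      have h3 := prod_formula (p : ℤ) p hp0 hp0 (insert p M.primeFactors) (by
        intro l hl
        rcases Finset.mem_insert.1 hl with rfl | hl
        · exact hp
        · exact hT0 l hl) (by
        intro l hl hlT
        rw [Finset.mem_insert, not_or] at hlT
        have hlM := hnd l hl hlT.2
        exact hQ_unit hl (hne2 l hlM) (hnp l p hl hp hlT.1) (hnp l p hl hp hlT.1))
      rw [Finset.sum_insert hpT] at h3
      have h4 := z1 _ _ _ h3
      rw [hQ_pp hp (hne2 p hpM)] at h4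
      have z4 : ∀ a : ZMod 2, a = a * a := by decide
      rw [← z4]
      exact h4
    · have h3 := prod_formula (p : ℤ) q hp0 hq0 (insert p (insert q M.primeFactors)) (by
        intro l hl
        rcases Finset.mem_insert.1 hl with rfl | hl
        · exact hp
        rcases Finset.mem_insert.1 hl with rfl | hl
        · exact hq
        · exact hT0 l hl) (by
        intro l hl hlT
        rw [Finset.mem_insert, Finset.mem_insert, not_or, not_or] at hlT
        have hlM := hnd l hl hlT.2.2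
        exact hQ_unit hl (hne2 l hlM) (hnp l p hl hp hlT.1) (hnp l q hl hq hlT.2.1))
      rw [Finset.sum_insert (by
        rw [Finset.mem_insert, not_or]
        exact ⟨hne, hpT⟩), Finset.sum_insert hqT] at h3
      have h4 := z2 _ _ _ _ h3
      have h5 : hQ p p q = nr p q := by
        rw [hQ_comm, hQ_p hp (hne2 p hpM) (hnp p q hp hq hne), Int.cast_natCast]
        rfl
      have h6 : hQ q p q = nr q p := by
        rw [hQ_p hq (hne2 q hqM) (hnp q p hq hp (Ne.symm hne)), Int.cast_natCast]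
        rfl
      rw [h5, h6, Pool.Agent.N973.ND.nr_rec hp (hne2 p hpM) hq (hne2 q hqM) hne] at h4
      have z5 : ∀ a b : ZMod 2, a + (a + b) = b := by decide
      rw [z5] at h4
      exact h4
  have hpw : ∀ p : ℕ, p.Prime → ¬ p ∣ M → ∀ w : ℕ, w.Coprime M →
      HS M p w = dot (ecl g (-1)) (lam g p) * dot (ecl g (-1)) (lam g w) := by
    intro p hp hpM
    have hp0 : (p : ℤ) ≠ 0 := by exact_mod_cast hp.ne_zero
    refine coprime_ind h2M _ ?_ ?_
    · rw [hlam1, dot_zero, mul_zero, Nat.cast_one]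
      exact HS_one M _ hp0
    · intro q w hq hqM hw ih
      have hw0 : w ≠ 0 := by
        rintro rfl
        have h2 : M = 1 := by simpa using hw
        rw [h2] at h2M
        omega
      have hq0 : (q : ℤ) ≠ 0 := by exact_mod_cast hq.ne_zero
      have hw0' : (w : ℤ) ≠ 0 := by exact_mod_cast hw0
      rw [Nat.cast_mul, HS_add M _ _ _ hp0 hq0 hw0', ih,
        l1 q w ((Nat.Prime.coprime_iff_not_dvd hq).2 hqM) hw, dot_add, mul_add,
        hpq p q hp hq hpM hqM, l6 p hp hpM, l6 q hq hqM]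
  have huw : ∀ u : ℕ, u.Coprime M → ∀ w : ℕ, w.Coprime M →
      HS M u w = dot (ecl g (-1)) (lam g u) * dot (ecl g (-1)) (lam g w) := by
    refine coprime_ind h2M _ ?_ ?_
    · intro w hw
      have hw0 : w ≠ 0 := by
        rintro rfl
        have h2 : M = 1 := by simpa using hw
        rw [h2] at h2M
        omega
      rw [hlam1, dot_zero, zero_mul, Nat.cast_one, HS_comm]
      exact HS_one M _ (by exact_mod_cast hw0)
    · intro p u hp hpM hu ih w hw
      have hne0 : ∀ w : ℕ, w.Coprime M → (w : ℤ) ≠ 0 := by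
        intro w hw h0
        have h1 : w = 0 := by exact_mod_cast h0
        rw [h1] at hw
        have h2 : M = 1 := by simpa using hw
        rw [h2] at h2M
        omega
      have hp0 : (p : ℤ) ≠ 0 := by exact_mod_cast hp.ne_zero
      rw [Nat.cast_mul, HS_add_left M _ _ _ hp0 (hne0 u hu) (hne0 w hw), hpw p hp hpM w hw, ih w hw,
        l1 p u ((Nat.Prime.coprime_iff_not_dvd hp).2 hpM) hu, dot_add, add_mul]
  have hne0 : ∀ w : ℕ, w.Coprime M → (w : ℤ) ≠ 0 := by
    intro w hw h0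
    have h1 : w = 0 := by exact_mod_cast h0
    rw [h1] at hw
    have h2 : M = 1 := by simpa using hw
    rw [h2] at h2M
    omega
  rw [HS_add_left M _ _ _ (hrep0 x) (hne0 u hu) (mul_ne_zero (hrep0 y) (hne0 w hw)),
    HS_add M _ _ _ (hrep0 x) (hrep0 y) (hne0 w hw), HS_add M _ _ _ (hne0 u hu) (hrep0 y) (hne0 w hw),
    hxy, hxw x w hw, HS_comm M u (rep g y), hxw y u hu, huw u hu w hw]
  ring

theorem t_HS : S_HS := main

end Pool.Agent.N603.GK.HS
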